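import Pool.Agent.Helper9.QP.Log

/-!
Every two trees on `n` common vertices have a simultaneous geometric embedding in which the first
tree is quasi planar and the second one has only logarithmically many pairwise crossing edges.
-/

namespace Pool.Agent.Results.MP_7d5175_co.LogCrossings

open Pool.Agent.Helper9.QP

/-- For every two trees `T₁`, `T₂` on the same set of `n` vertices there is one placement `P` of the
vertices which gives a quasi planar straight-line drawing of `T₁` and a straight-line drawing of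
`T₂` without `⌊log₂ ⌊(⌊n / 2⌋ + 1) / 3⌋⌋ + 2` pairwise crossing edges. -/
theorem result (V : Type) [Fintype V] (T₁ T₂ : SimpleGraph V) (h₁ : T₁.IsTree) (h₂ : T₂.IsTree) :
    ∃ P : V → ℝ × ℝ, IsQuasiPlanar T₁ P ∧ IsDrawing T₂ P ∧
      NoCrossingFamily T₂ P (Nat.log 2 ((Fintype.card V / 2 + 1) / 3) + 2) := by
  obtain ⟨o, Y, hYi, hY⟩ := exists_log_order h₂
  obtain ⟨X, hXi, hXo, hp⟩ := srule h₁ o Y hYi
  obtain ⟨M, hM, hXM⟩ := exists_M X
  refine ⟨pt X Y M, ⟨isDrawing_pt hXi hYi hM hXM _, noCrossing_of_plane2 hXi hYi hM hXM hp⟩,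
    isDrawing_pt hXi hYi hM hXM _, ?_⟩
  rintro ⟨e, h1, h2⟩
  obtain ⟨a, b, hab, hab', hc⟩ := orient Y hYi e h1 h2
  have hd : ∀ i j, i ≠ j → a i ≠ a j ∧ a i ≠ b j ∧ b i ≠ a j ∧ b i ≠ b j := fun i j hij =>
    disjoint_of_crosses hXi hYi hM hXM (hab i).ne (hab j).ne (hc i j hij)
  have hlt : ∀ i j, Y (a i) < Y (b j) := by
    intro i j
    by_cases hij : i = j
    · rw [hij]
      exact hab' j
    · rcases K_of_crosses hXi hYi hM hXM (hab' i) (hab' j) (hc i j hij) with h3 | h3
      · exact h3.2.2.2.1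
      · exact lt_trans (hab' i) h3.2.2.1
  obtain ⟨i₀, -, hi₀⟩ := Finset.exists_max_image
    (Finset.univ : Finset (Fin (Nat.log 2 ((Fintype.card V / 2 + 1) / 3) + 2)))
    (fun i => Y (b i)) ⟨0, Finset.mem_univ _⟩
  obtain ⟨j, hj⟩ : ∃ j, j ≠ i₀ := exists_ne i₀
  have hao : a i₀ ≠ o := by
    intro ho
    have h3 : Y (b j) < Y (b i₀) := lt_of_le_of_ne (hi₀ j (Finset.mem_univ j))
      (fun h => (hd j i₀ hj).2.2.2 (hYi h))
    have h4 : ∀ v, X o ≤ X v := fun v => by
      by_cases hv : v = o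
      · rw [hv]
      · exact (hXo v hv).le
    have h5 := h4 (a j)
    have h6 := h4 (b j)
    rcases K_of_crosses hXi hYi hM hXM (hab' i₀) (hab' j) (hc i₀ j hj.symm) with h7 | h7
    · have := h7.2.2.2.2
      rw [ho] at this
      omega
    · have := h7.2.2.1
      omega
  have key := hY (Nat.log 2 ((Fintype.card V / 2 + 1) / 3) + 1) a b hab hlt
    (fun i j hij => (hd i j hij).1) (fun i j hij => (hd i j hij).2.2.2) i₀
    (fun j => hi₀ j (Finset.mem_univ j)) hao
  have h6 := Nat.lt_pow_succ_log_self (b := 2) (by norm_num) ((Fintype.card V / 2 + 1) / 3)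
  rw [Nat.card_eq_fintype_card] at key
  have h7 : (Fintype.card V / 2 + 1) / 3 <
    2 ^ (Nat.log 2 ((Fintype.card V / 2 + 1) / 3) + 1) := h6
  rw [Nat.div_lt_iff_lt_mul (by norm_num)] at h7
  omega

end Pool.Agent.Results.MP_7d5175_co.LogCrossings
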