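import Pool.Agent.Helper9.QP.Pathwidth

/-!
Every tree and every graph of pathwidth at most two on the same vertex set have a simultaneous
geometric quasi planar embedding.
-/

namespace Pool.Agent.Results.MP_7d5175_co.PathwidthTwo

open Pool.Agent.Helper9.QP

/-- For every tree `T` and every graph `G` of pathwidth at most two on the same finite vertex set
there is one placement `P` of the vertices which gives a quasi planar straight-line drawing of `T`
and a quasi planar straight-line drawing of `G`. -/
theorem result (V : Type) [Finite V] (T G : SimpleGraph V) (hT : T.IsTree)
    (hG : HasPathwidthLE G 2) :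
    ∃ P : V → ℝ × ℝ, IsQuasiPlanar T P ∧ IsQuasiPlanar G P := by
  haveI := hT.connected.nonempty
  obtain ⟨o, Y, h⟩ := narrow_of_pathwidth hG
  exact core hT h

end Pool.Agent.Results.MP_7d5175_co.PathwidthTwo
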