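import Pool.Agent.Helper9.QP.Rank

/-!
Every tree and every tree of rank at most two off one vertex (for instance of radius at most three)
on the same vertex set have a simultaneous geometric quasi planar embedding.
-/

namespace Pool.Agent.Results.MP_7d5175_co.RankTwoTrees

open Pool.Agent.Helper9.QP

/-- (1) For every tree `T` and every tree `T'` on the same finite vertex set such that `T'`, rooted
at some vertex `o`, has rank at most two off `o`, there is one placement `P` of the vertices which
gives quasi planar straight-line drawings of both trees.  (2) Every tree of radius at most three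
satisfies the hypothesis on `T'`. -/
theorem result (V : Type) [Finite V] (T' : SimpleGraph V) (hT' : T'.IsTree) :
    ((∃ o, RankTwo T' o) → ∀ T : SimpleGraph V, T.IsTree →
      ∃ P : V → ℝ × ℝ, IsQuasiPlanar T P ∧ IsQuasiPlanar T' P) ∧
    ((∃ o, ∀ v, T'.dist o v ≤ 3) → ∃ o, RankTwo T' o) := by
  refine ⟨?_, ?_⟩
  · rintro ⟨o, ho⟩ T hT
    obtain ⟨Y, h⟩ := narrow_of_rank hT' ho
    exact core hT h
  · rintro ⟨o, ho⟩
    exact ⟨o, rank_of_radius hT' ho⟩

end Pool.Agent.Results.MP_7d5175_co.RankTwoTrees
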